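import Mathlib

set_option autoImplicit false

namespace Pool.Agent.Results.MP_fb2c2a_nt.PartCFails

open Finset

/-- The polynomial value `D_n(x) = ∑_{k=0}^{n} C(n,k) C(n+k,k) x^k`. -/
def D (n : ℕ) (x : ℚ) : ℚ := ∑ k ∈ range (n + 1), (n.choose k : ℚ) * ((n + k).choose k : ℚ) * x ^ k

/-- Two rationals are congruent modulo `p^m` when their difference is `p^m` times a rational
number with denominator prime to `p`. -/
def Cong (p m : ℕ) (x y : ℚ) : Prop := ¬ p ∣ ((x - y) / (p : ℚ) ^ m).den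

/-- The first congruence of part (c) for the prime `p`:
`∑ D_k(3)^3 ≡ (-5/p) ∑ (-1)^k D_k(-1/16)^3 (mod p^2)`, sums over `0 ≤ k ≤ p-1`. -/
def PartC1 (p : ℕ) : Prop :=
  Cong p 2 (∑ k ∈ range p, D k 3 ^ 3)
    ((jacobiSym (-5) p : ℚ) * ∑ k ∈ range p, (-1) ^ k * D k (-1 / 16) ^ 3)

theorem D0 : D 0 3 = 1 := by simp [D]
theorem D1 : D 1 3 = 7 := by norm_num [D, sum_range_succ]
theorem D2 : D 2 3 = 73 := by norm_num [D, sum_range_succ, Nat.choose]
theorem D3 : D 3 3 = 847 := by norm_num [D, sum_range_succ, Nat.choose]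
theorem D4 : D 4 3 = 10321 := by norm_num [D, sum_range_succ, Nat.choose]

theorem fail5 : ¬ PartC1 5 := by
  have hs : jacobiSym (-5) 5 = 0 := by norm_num
  unfold PartC1 Cong
  rw [hs]
  simp only [sum_range_succ, sum_range_zero, D0, D1, D2, D3, D4]
  norm_num

/-- The first congruence of part (c) fails for the prime `p = 5`; hence part (c) does not hold for
every prime `p > 3`. -/
theorem result : ¬ (∀ p : ℕ, p.Prime → 3 < p → PartC1 p) ∧ ¬ PartC1 5 :=
  ⟨fun h => fail5 (h 5 (by norm_num) (by norm_num)), fail5⟩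

end Pool.Agent.Results.MP_fb2c2a_nt.PartCFails
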